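import Pool.Agent.R231.FK.Top

/-!
MP_bbe01f: radial-derivative characterisation of Fock spaces.

For all `n ≥ 1`, `0 < p ≤ ∞`, `α > 0`, `N ≥ 1` and all entire `f` on `ℂⁿ`:
`f ∈ F^p_α` if and only if `R^N f(z)/(1+|z|²)^N ∈ L^p_α`.
-/

namespace Pool.Agent.Results.MP_bbe01f_an.RadialFock

open Set Pool.Agent.R231.FK
open scoped ENNReal

theorem result (n : ℕ) (_hn : 1 ≤ n) (p : ℝ≥0∞) (hp : 0 < p) (α : ℝ) (hα : 0 < α) (N : ℕ)
    (_hN : 1 ≤ N) (f : (Fin n → ℂ) → ℂ) (hf : AnalyticOnNhd ℂ f univ) :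
    InFock α p f ↔ InL α p (fun z => (Rad^[N] f) z / ((1 + nsq z : ℝ) : ℂ) ^ N) := by
  unfold InFock
  rw [← main hα hp N hf]
  exact ⟨fun h => h.2, fun h => ⟨hf, h⟩⟩

end Pool.Agent.Results.MP_bbe01f_an.RadialFock
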